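import Mathlib

set_option autoImplicit false

universe u

open Finset

namespace Pool.Agent.Results.MP_9320d9_al.PrimePower

open Classical in
theorem class_card {G : Type u} [Group G] [Fintype G] (y : G) :
    Nat.card (Subgroup.centralizer {y}) * #{x | IsConj y x} = Nat.card G := by
  have h := (MulAction.stabilizer (ConjAct G) y).card_mul_index
  rw [MulAction.index_stabilizer, ← Subgroup.nat_card_centralizer_nat_card_stabilizer,
    ConjAct.orbit_eq_carrier_conjClasses, ← Nat.card_congr (ConjAct.toConjAct (G := G)).toEquiv] at h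
  rw [← h, ← Set.ncard_coe_finset]
  congr 2
  ext x
  simp only [coe_filter, mem_univ, true_and, Set.mem_ofPred_eq, ConjClasses.mem_carrier_iff_mk_eq,
    ConjClasses.mk_eq_mk_iff_isConj, isConj_comm]

open Classical in
theorem dvd_sum_classes {G : Type u} [Group G] [Fintype G] (d : ℕ) (S : Finset G)
    (hS : ∀ x y, IsConj x y → x ∈ S → y ∈ S) (f : G → ℕ) (hf : ∀ x y, IsConj x y → f x = f y)
    (hd : ∀ y ∈ S, d ∣ #{x | IsConj y x} * f y) : d ∣ ∑ y ∈ S, f y := by
  rw [← Finset.sum_fiberwise_of_maps_to (g := ConjClasses.mk) (t := S.image ConjClasses.mk)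
    fun x hx => mem_image_of_mem _ hx]
  refine dvd_sum fun c hc => ?_
  obtain ⟨y, hy, rfl⟩ := mem_image.1 hc
  have e : ({x ∈ S | ConjClasses.mk x = ConjClasses.mk y} : Finset G) =
      ({x | IsConj y x} : Finset G) := by
    ext x
    simp only [mem_filter, ConjClasses.mk_eq_mk_iff_isConj, mem_univ, true_and]
    exact ⟨fun h => h.2.symm, fun h => ⟨hS _ _ h hy, h.symm⟩⟩
  rw [e, sum_congr rfl fun x hx => (hf _ _ (mem_filter.1 hx).2).symm, sum_const, smul_eq_mul]
  exact hd y hy

open Classical in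
theorem frob (q : ℕ) (hq : q.Prime) (n : ℕ) : ∀ (G : Type u) [Group G] [Fintype G],
    Nat.card G = n → ∀ d a, d ∣ q ^ a → d ∣ n → d ∣ #{x : G | ∃ k, x ^ q ^ k = 1} := by
  induction n using Nat.strong_induction_on with
  | _ n ih =>
  intro G _ _ hn d a hda hdn
  have hn0 : n ≠ 0 := hn ▸ Nat.card_pos.ne'
  obtain ⟨b, m, hm, e⟩ := Nat.exists_eq_pow_mul_and_not_dvd hn0 q hq.ne_one
  have hc : Nat.Coprime (q ^ b) m := ((Nat.Prime.coprime_iff_not_dvd hq).2 hm).pow_left b
  obtain ⟨t, ht0, ht1⟩ := Nat.chineseRemainder hc 0 1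
  obtain ⟨s, rfl⟩ := (Nat.modEq_zero_iff_dvd).1 ht0
  have hpow : ∀ g : G, g ^ (q ^ b * m) = 1 := fun g => by rw [← e, ← hn, pow_card_eq_one']
  have hq1 : ∀ x : G, (∃ k, x ^ q ^ k = 1) → x ^ q ^ b = 1 := by
    rintro x ⟨k, hk⟩
    rw [← orderOf_dvd_iff_pow_eq_one] at hk ⊢
    refine Nat.Coprime.dvd_of_dvd_mul_right (n := m) ?_ (orderOf_dvd_iff_pow_eq_one.2 (hpow x))
    exact Nat.Coprime.coprime_dvd_left hk (((Nat.Prime.coprime_iff_not_dvd hq).2 hm).pow_left k)
  have hy1 : ∀ y : G, y ^ m = 1 → y ^ (q ^ b * s) = y := fun y hy => by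
    rw [pow_eq_pow_of_modEq ht1 hy, pow_one]
  let f : G → ℕ := fun y => #{x : G | Commute x y ∧ ∃ k, x ^ q ^ k = 1}
  have hsum : n = ∑ y ∈ ({y : G | y ^ m = 1} : Finset G), f y := by
    rw [← hn, Nat.card_eq_fintype_card, ← card_univ,
      card_eq_sum_card_fiberwise (f := fun g : G => g ^ (q ^ b * s)) (t := {y : G | y ^ m = 1})]
    · refine sum_congr rfl fun y hy => ?_
      have hy := (mem_filter.1 hy).2
      refine card_bij' (fun g _ => g * y⁻¹) (fun x _ => x * y) ?_ ?_ (by simp) (by simp)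
      · intro g hg
        have hg : g ^ (q ^ b * s) = y := (mem_filter.1 hg).2
        have hc : Commute g y := hg ▸ Commute.self_pow g _
        refine mem_filter.2 ⟨mem_univ _, hc.mul_left (Commute.refl y).inv_left, b, ?_⟩
        rw [hc.inv_right.mul_pow, inv_pow, mul_inv_eq_one, ← hg, ← pow_mul]
        have := pow_eq_pow_of_modEq (ht1.mul_left' (q ^ b)) (hpow g)
        rw [mul_one] at this
        rw [← this, mul_comm]
      · intro x hx
        obtain ⟨-, hc, hx⟩ := mem_filter.1 hx
        refine mem_filter.2 ⟨mem_univ _, ?_⟩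
        rw [hc.mul_pow, pow_mul x, hq1 x hx, one_pow, one_mul, hy1 y hy]
    · intro g _
      simp only [coe_filter, mem_univ, true_and, Set.mem_ofPred_eq]
      rw [← pow_mul, mul_right_comm, pow_mul, hpow, one_pow]
  rw [← sum_filter_add_sum_filter_not _ (· ∈ Subgroup.center G)] at hsum
  have h2 : d ∣ ∑ y ∈ ({y : G | y ^ m = 1} : Finset G) with ¬ y ∈ Subgroup.center G, f y := by
    refine dvd_sum_classes d _ ?_ f ?_ ?_
    · intro x y hxy hx
      obtain ⟨c, rfl⟩ := isConj_iff.1 hxy
      simp only [mem_filter, mem_univ, true_and] at hx ⊢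
      refine ⟨by rw [conj_pow, hx.1]; simp, fun h => hx.2 ?_⟩
      simpa [mul_assoc] using (inferInstance : (Subgroup.center G).Normal).conj_mem _ h c⁻¹
    · intro x y hxy
      obtain ⟨c, rfl⟩ := isConj_iff.1 hxy
      refine card_equiv (MulAut.conj c).toEquiv fun z => ?_
      simp only [mem_filter, mem_univ, true_and, MulEquiv.toEquiv_eq_coe, EquivLike.coe_coe,
        MulAut.conj_apply, conj_pow, conj_eq_one_iff, Commute.conj_iff]
    · intro y hy
      have hy : y ∉ Subgroup.center G := (mem_filter.1 hy).2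
      have hcl := class_card y
      obtain ⟨d₁, d₂, h1, h2, rfl⟩ := Nat.dvd_mul.1 (show d ∣ _ by rw [hcl, hn]; exact hdn)
      rw [mul_comm]
      refine mul_dvd_mul h2 ?_
      have hlt : Nat.card (Subgroup.centralizer {y}) < n := by
        rw [← hn]
        by_contra hle
        have := Subgroup.eq_top_of_le_card _ (not_lt.1 hle)
        exact hy (Subgroup.centralizer_eq_top_iff_subset.1 this (Set.mem_singleton y))
      have := ih _ hlt (Subgroup.centralizer {y}) rfl d₁ a ((dvd_mul_right _ _).trans hda) h1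
      refine this.trans (dvd_of_eq ?_)
      refine card_bij (fun x _ => x.val) ?_ (by simp) ?_
      · intro x hx
        obtain ⟨-, k, hk⟩ := mem_filter.1 hx
        exact mem_filter.2 ⟨mem_univ _, Subgroup.mem_centralizer_singleton_iff.1 x.2, k,
          congrArg Subtype.val hk⟩
      · intro x hx
        obtain ⟨-, hc, k, hk⟩ := mem_filter.1 hx
        exact ⟨⟨x, Subgroup.mem_centralizer_singleton_iff.2 hc⟩,
          mem_filter.2 ⟨mem_univ _, k, Subtype.ext hk⟩, rfl⟩
  rw [hsum, ← Nat.dvd_add_iff_left h2, sum_congr rfl (g := fun _ => #{x : G | ∃ k, x ^ q ^ k = 1}),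
    sum_const, smul_eq_mul] at hdn
  · refine Nat.Coprime.dvd_of_dvd_mul_left ?_ hdn
    refine Nat.Coprime.coprime_dvd_left hda (Nat.Coprime.pow_left a ?_)
    rw [Nat.Prime.coprime_iff_not_dvd hq]
    intro hd
    let Z : Subgroup G :=
      { carrier := {y | y ^ m = 1 ∧ y ∈ Subgroup.center G}
        one_mem' := ⟨one_pow _, one_mem _⟩
        mul_mem' := fun {x y} hx hy => ⟨by
          rw [Commute.mul_pow (Subgroup.mem_center_iff.1 hy.2 x), hx.1, hy.1, one_mul],
          mul_mem hx.2 hy.2⟩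
        inv_mem' := fun {x} hx => ⟨by rw [inv_pow, hx.1, inv_one], inv_mem hx.2⟩ }
    have : Fact q.Prime := ⟨hq⟩
    obtain ⟨z, hz⟩ := exists_prime_orderOf_dvd_card' (G := Z) q (by
      convert hd
      rw [Nat.card_eq_fintype_card, Fintype.card_subtype]
      congr 1
      ext y
      simp only [mem_filter, mem_univ, true_and]
      rfl)
    refine hm (hz ▸ orderOf_dvd_iff_pow_eq_one.2 (Subtype.ext z.2.1))
  · intro y hy
    have hy := (mem_filter.1 hy).2
    refine congrArg card (filter_congr fun x _ => ?_)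
    exact and_iff_right (Subgroup.mem_center_iff.1 hy x)

/-- The divisibility condition forces prime power element orders. -/
theorem result (G : Type u) [Group G] [Finite G]
    (h : ∀ d : ℕ, 1 < d → d ∣ Nat.card G → ∀ H : Subgroup G, Nat.Coprime (Nat.card H) d →
      Nat.card H ∣ Nat.card {g : G // orderOf g = d}) (g : G) :
    ∃ p k : ℕ, p.Prime ∧ orderOf g = p ^ k := by
  classical
  have := Fintype.ofFinite G
  let P : Finset G := {g | ∃ p k : ℕ, p.Prime ∧ orderOf g = p ^ k}
  have hd : Nat.card G ∣ #P := by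
    refine (Nat.dvd_iff_prime_pow_dvd_dvd _ _).2 fun q k hq hk => ?_
    have : Fact q.Prime := ⟨hq⟩
    obtain ⟨H, hH⟩ := Sylow.exists_subgroup_card_pow_prime q hk
    rw [← card_filter_add_card_filter_not (fun x : G => ∃ k, x ^ q ^ k = 1)]
    refine dvd_add ?_ ?_
    · refine (frob q hq _ G rfl _ k dvd_rfl hk).trans (dvd_of_eq (congrArg card ?_))
      symm
      ext x
      simp only [P, mem_filter, mem_univ, true_and, and_iff_right_iff_imp]
      rintro ⟨j, hj⟩
      obtain ⟨i, -, hi⟩ := (Nat.dvd_prime_pow hq).1 (orderOf_dvd_iff_pow_eq_one.2 hj)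
      exact ⟨q, i, hq, hi⟩
    · rw [card_eq_sum_card_image orderOf]
      refine dvd_sum fun d hd => ?_
      obtain ⟨x, hx, rfl⟩ := mem_image.1 hd
      obtain ⟨hx1, hx2⟩ := mem_filter.1 hx
      obtain ⟨-, p, j, hp, hj⟩ := mem_filter.1 hx1
      have hpq : p ≠ q := by
        rintro rfl
        exact hx2 ⟨j, hj ▸ pow_orderOf_eq_one x⟩
      have h1 : 1 < orderOf x := by
        by_contra hle
        have h0 := orderOf_pos x
        exact hx2 ⟨0, by simpa using orderOf_eq_one_iff.1 (by omega)⟩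
      have := h _ h1 (orderOf_dvd_natCard x) H (by
        rw [hH, hj]
        exact Nat.coprime_pow_primes _ _ hq hp hpq.symm)
      rw [hH, Nat.card_eq_fintype_card, Fintype.card_subtype] at this
      refine this.trans (dvd_of_eq (congrArg card ?_))
      symm
      ext y
      simp only [P, mem_filter, mem_univ, true_and, and_iff_right_iff_imp]
      intro hy
      refine ⟨⟨p, j, hp, hy.trans hj⟩, fun ⟨i, hi⟩ => hx2 ⟨i, ?_⟩⟩
      rwa [← orderOf_dvd_iff_pow_eq_one, ← hy, orderOf_dvd_iff_pow_eq_one]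
  have h1 : 0 < #P := card_pos.2 ⟨1, mem_filter.2 ⟨mem_univ _, 2, 0, Nat.prime_two, by simp⟩⟩
  have h2 : P = univ := by
    rw [← card_eq_iff_eq_univ]
    exact le_antisymm (card_le_univ _) (Nat.card_eq_fintype_card (α := G) ▸ Nat.le_of_dvd h1 hd)
  exact (mem_filter.1 (h2 ▸ mem_univ g : g ∈ P)).2

end Pool.Agent.Results.MP_9320d9_al.PrimePower
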